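import Pool.Agent.N311.SH.Fin

/-!
# MP_c6d336_gt, Q1: N = 3

Let `X` be the unit sphere of Euclidean 3-space, `G X` the path component of the identity in the
group of homeomorphisms of `X` with the compact-open topology, and let `P X n` say that for all
nontrivial `A, B` in `G X` the element `B` is a product of exactly `n` conjugates of `A` by
homeomorphisms of `X`.  The least `n` with `P X n` is `3`.

Proof.  (1) Local linearization: every homeomorphism of the sphere fixing a point can be changed by
a homeomorphism supported near the point so that it becomes `z` or the conjugate of `z` near it
(Riemann map of the image of a disc, boundary extension of the Riemann map and of its inverse by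
the length-area principle, radial extension of circle homeomorphisms, straightening of a
holomorphic germ).  (2) So every nontrivial `A` is conjugate to a map equal to `1 / z` (or `1 / conj z`)
near infinity, with an inverse of the form `a + 1 / z` there.  (3) Ping-pong: for such `A, B` the
product of `B` and a suitable conjugate of `A` is linear near `0` and its inverse contracts the rest
of the sphere to a point, so it is conjugate to `z ↦ s ^ 2 * z`; the conjugate of `z` is excluded
since complex conjugation is not isotopic to the identity.  Applied to `A, A` and to `B, A⁻¹` this
gives `B` as a product of three conjugates of `A`.  (4) A product of two conjugates of an involution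
is conjugate to its inverse, which fails for a map with an attracting fixed point and an open set
of fixed points.
-/

set_option autoImplicit false

namespace Pool.Agent.Results.MP_c6d336_gt.ThreeConjugates

/-- The compact-open topology on the group of homeomorphisms of `X` (the topology induced by the
compact-open topology on continuous maps). -/
@[reducible] def compactOpen (X : Type) [TopologicalSpace X] : TopologicalSpace (X ≃ₜ X) :=
  TopologicalSpace.induced (fun h : X ≃ₜ X => (⟨h, h.continuous⟩ : C(X, X)))
    ContinuousMap.compactOpen

/-- The path component of the identity in the group of homeomorphisms of `X`. -/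
def G (X : Type) [TopologicalSpace X] : Set (X ≃ₜ X) :=
  {A | @Joined (X ≃ₜ X) (compactOpen X) 1 A}

/-- The property `P(n)`: for all nontrivial `A, B` in `G` there are homeomorphisms `H i`, `i < n`,
of the space with `B = (H 0 A (H 0)⁻¹) ... (H (n-1) A (H (n-1))⁻¹)`. -/
def P (X : Type) [TopologicalSpace X] (n : ℕ) : Prop :=
  ∀ A ∈ G X, ∀ B ∈ G X, A ≠ 1 → B ≠ 1 →
    ∃ H : Fin n → (X ≃ₜ X), B = (List.ofFn fun i => H i * A * (H i)⁻¹).prod

/-- `N = 3`: for the 2-sphere (the unit sphere of Euclidean 3-space) the least `n ≥ 1` with
`P(n)` is `3`. -/
theorem result : IsLeast {n : ℕ | 1 ≤ n ∧
    P (Metric.sphere (0 : EuclideanSpace ℝ (Fin 3)) 1) n} 3 :=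
  Pool.Agent.N311.SH.final_all

end Pool.Agent.Results.MP_c6d336_gt.ThreeConjugates
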